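import Pool.Agent.TH970.Alpha
import Pool.Agent.TH970.PtModel

/-! # The displacement exponent of Brownian motion surviving among moving traps, point version

The trapping time is the first time at which the particle itself is in the trap field,
`T = inf {s ≥ 0 : X_s ∈ K_s}`. -/

namespace Pool.Agent.Results.MP_b41181_pr.PointExponent

open MeasureTheory ProbabilityTheory
open scoped ENNReal NNReal
open Pool.Agent.TH970

/-- For every moving trap model with positive intensity and positive radius, the exponent `α*` of
the maximal displacement of the particle conditioned to survive is `1/3`, where survival up to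
time `t` means `T > t` for the time `T = inf {s ≥ 0 : X_s ∈ K_s}`. -/
theorem result {Ω : Type*} [MeasurableSpace Ω] (P : Measure Ω) [IsProbabilityMeasure P]
    (lam : ℝ≥0) (hlam : 0 < lam) (a : ℝ) (ha : 0 < a) (X : ℝ≥0 → Ω → ℝ) (x : ℕ → Ω → ℝ)
    (Y : ℕ → ℝ≥0 → Ω → ℝ) (hM : TrapModel P lam X x Y) :
    alphaStar P X (hitTime a X x Y) = 1 / 3 :=
  alphaStar_eq (fun _ ht => survival_posP hM ha ht)
    (fun _ hα _ _ hc => ratio_largeP hlam hM ha hα hc)
    (fun _ hα0 hα _ hc => ratio_smallP hM ha hα0 hα hc)

end Pool.Agent.Results.MP_b41181_pr.PointExponent
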