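import Pool.Agent.TH970.Alpha
import Pool.Agent.TH970.LitModel

/-! # The displacement exponent of Brownian motion surviving among moving traps

The trapping time is the time at which the range of the particle meets the trap field, as in the
problem file. -/

namespace Pool.Agent.Results.MP_b41181_pr.RangeExponent

open MeasureTheory ProbabilityTheory
open scoped ENNReal NNReal
open Pool.Agent.TH970

/-- For every moving trap model with positive intensity and positive radius, the exponent `α*` of
the maximal displacement of the particle conditioned to survive is `1/3`, where survival up to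
time `t` means `T > t` for the time `T = inf {s ≥ 0 : R_s(X) ∩ K_s ≠ ∅}`. -/
theorem result {Ω : Type*} [MeasurableSpace Ω] (P : Measure Ω) [IsProbabilityMeasure P]
    (lam : ℝ≥0) (hlam : 0 < lam) (a : ℝ) (ha : 0 < a) (X : ℝ≥0 → Ω → ℝ) (x : ℕ → Ω → ℝ)
    (Y : ℕ → ℝ≥0 → Ω → ℝ) (hM : TrapModel P lam X x Y) :
    alphaStar P X (rangeHitTime a X x Y) = 1 / 3 :=
  alphaStar_eq (fun _ ht => survival_pos hM ha ht)
    (fun _ hα hα2 _ hc => ratio_large hlam hM ha hα hα2 hc)
    (fun _ hα0 hα _ hc => ratio_small hM ha hα0 hα hc)

end Pool.Agent.Results.MP_b41181_pr.RangeExponent
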